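import Pool.Agent.U640.BG.Fin
import Pool.Agent.U640.BG.GRW
import Pool.Agent.U640.BG.DG
import Pool.Agent.U640.BG.JT
import Pool.Agent.U640.BG.STEP
import Pool.Agent.U640.BG.HL
import Pool.Agent.U640.BG.EH
import Pool.Agent.U640.BG.BS
import Pool.Agent.U640.BG.CMP
import Pool.Agent.U640.BG.EXL
import Pool.Agent.U640.BG.CNT
import Pool.Agent.U640.BG.RZ
import Pool.Agent.U640.BG.LOC

set_option autoImplicit false

/-!
# Growth of the Grigorchuk groups `G_ω` with arbitrarily long constant blocks; prescribed growth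

`ballO ω n` is the number of elements of length at most `n` of `G_ω`, `ell ω k = ℓ_k` the maximum of the
three integer weights (`n_0 = (1, 1, 1)`; in step `i` the weight of the letter with entry `0` in the
column `ω_i` is replaced by the sum of the three weights, the two others are doubled), and
`FF ω n = 2 ^ (2 ^ k)`, `k` the least number with `n ≤ ℓ_k` (definitions in
`Pool/Agent/H776R2/Om/Defs.lean`).
-/

namespace Pool.Agent.Results.MP_fbbd83_al.BlockGrowth

open Pool.Agent.Results.MP_03d093_al.SphereBall Pool.Agent.H776R2.Grig Pool.Agent.H776R2.Om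
open Pool.Agent.U640.BG

/-- `f ∼ g`: `f n ≤ g (C n)` and `g n ≤ f (C n)` for some `C` and all `n` -/
def Same (f g : ℕ → ℕ) : Prop :=
  (∃ C : ℕ, 1 ≤ C ∧ ∀ n : ℕ, f n ≤ g (C * n)) ∧ (∃ C : ℕ, 1 ≤ C ∧ ∀ n : ℕ, g n ≤ f (C * n))

theorem Same.symm {f g : ℕ → ℕ} (h : Same f g) : Same g f := ⟨h.2, h.1⟩

theorem Same.trans {f g h : ℕ → ℕ} (h1 : Same f g) (h2 : Same g h) : Same f h :=
  ⟨dom_trans h1.1 h2.1, dom_trans h2.2 h1.2⟩

/-- the degree of growth of `G_ω` -/
theorem blocks {r S : ℕ} {ω : Om} {k s R : ℕ → ℕ} (h : Adm r S ω k s R) :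
    Same (FF ω) (ballO ω) :=
  growth (t_STEP t_DG t_JT) t_HL t_EH (t_BS t_DG t_LOC) t_GRW t_CNT t_CMP h

/-- all three letters occur infinitely often -/
theorem letters {r S : ℕ} {ω : Om} {k s R : ℕ → ℕ} (h : Adm r S ω k s R) (x : Fin 3) (N : ℕ) :
    ∃ n, N ≤ n ∧ ω n = x := by
  have hr := r_pos h
  have hinc : ∀ i, i ≤ k i := by
    intro i
    induction i with
    | zero => omega
    | succ i ih =>
      have := h.ks i
      have := h.s1 i
      omega
  have h1 := h.s1 N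
  obtain ⟨j, -, hj⟩ := h.hom N (k N) x le_rfl (by omega)
  exact ⟨k N + j, by have := hinc N; omega, hj⟩

theorem prescribed (ψ : ℕ → ℝ) (h0 : 0 < ψ 0) (h2 : ∀ k, 2 * ψ k ≤ ψ (k + 1))
    (h3 : ∀ k, ψ (k + 1) ≤ 12 / 5 * ψ k)
    (h4 : Filter.Tendsto (fun k => ψ k / 2 ^ k) Filter.atTop Filter.atTop) :
    ∃ ω : Om, (∀ (x : Fin 3) (N : ℕ), ∃ n, N ≤ n ∧ ω n = x) ∧ Same (FF ω) (ballO ω) ∧
      ∃ c1 c2 : ℝ, 0 < c1 ∧ ∀ i, c1 * ψ i ≤ ell ω i ∧ (ell ω i : ℝ) ≤ c2 * ψ i := by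
  obtain ⟨r, S, ω, k, s, R, hA, hc⟩ := t_RZ ψ h0 h2 h3 h4
  exact ⟨ω, letters hA, blocks hA, hc⟩

/-- **Theorem.**
(1) Let `ω` consist of `r`-homogeneous stretches `[k_i, k_i + s_i)`, `24 r ≤ s_i ≤ S`, separated by
constant blocks `[k_i + s_i, k_(i+1))` of arbitrary lengths (`0` or at least `3`).  Then the degree of
growth of `G_ω` is that of the explicit function `F_ω`.
(2) For every `ψ` with `2 ψ(k) ≤ ψ(k+1) ≤ (12/5) ψ(k)` and `ψ(k) / 2^k → ∞` there is an `ω` in which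
all three letters occur infinitely often such that the degree of growth of `G_ω` is that of
`2 ^ (2 ^ k(n))`, `k(n)` the least `k` with `n ≤ ψ(k)`.
(3) For every `α` with `log 2 / log (12/5) ≤ α < 1` there is such an `ω` with degree of growth
`exp(n^α)`.
(4) There is such an `ω` with degree of growth `exp(n / log n)`. -/
theorem result :
    (∀ (r S : ℕ) (ω : ℕ → Fin 3) (k s R : ℕ → ℕ), Adm r S ω k s R → Same (FF ω) (ballO ω)) ∧
    (∀ ψ : ℕ → ℝ, 0 < ψ 0 → (∀ k, 2 * ψ k ≤ ψ (k + 1)) → (∀ k, ψ (k + 1) ≤ 12 / 5 * ψ k) →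
      Filter.Tendsto (fun k => ψ k / 2 ^ k) Filter.atTop Filter.atTop →
      ∃ ω : ℕ → Fin 3, (∀ (x : Fin 3) (N : ℕ), ∃ n, N ≤ n ∧ ω n = x) ∧
        Same (FP ψ) (ballO ω)) ∧
    (∀ α : ℝ, Real.log 2 / Real.log (12 / 5) ≤ α → α < 1 →
      ∃ ω : ℕ → Fin 3, (∀ (x : Fin 3) (N : ℕ), ∃ n, N ≤ n ∧ ω n = x) ∧
        Same (fun n => ⌊Real.exp ((n : ℝ) ^ α)⌋₊) (ballO ω)) ∧
    (∃ ω : ℕ → Fin 3, (∀ (x : Fin 3) (N : ℕ), ∃ n, N ≤ n ∧ ω n = x) ∧
      Same (fun n => ⌊Real.exp ((n : ℝ) / Real.log (n + 2))⌋₊) (ballO ω)) := by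
  refine ⟨fun r S ω k s R h => blocks h, ?_, ?_, ?_⟩
  · intro ψ h0 h2 h3 h4
    obtain ⟨ω, hl, hs, c1, c2, hc1, hc⟩ := prescribed ψ h0 h2 h3 h4
    exact ⟨ω, hl, (Same.symm (FF_FP ω ψ c1 c2 hc1 h0 h2 hc)).trans hs⟩
  · intro α h1 h2
    have hl2 : 0 < Real.log 2 := Real.log_pos (by norm_num)
    have hl12 : 0 < Real.log (12 / 5) := Real.log_pos (by norm_num)
    have hα : 0 < α := lt_of_lt_of_le (by positivity) h1
    set lam : ℝ := (2 : ℝ) ^ (1 / α) with hlam
    have hlog : Real.log lam = Real.log 2 / α := by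
      rw [hlam, Real.log_rpow (by norm_num)]
      ring
    have hlam2 : 2 < lam := by
      have : (2 : ℝ) ^ (1 : ℝ) < (2 : ℝ) ^ (1 / α) := by
        apply Real.rpow_lt_rpow_of_exponent_lt (by norm_num)
        rw [lt_div_iff₀ hα]
        linarith
      rwa [Real.rpow_one] at this
    have hlam0 : 0 < lam := by linarith
    have hlam12 : lam ≤ 12 / 5 := by
      rw [← Real.log_le_log_iff hlam0 (by norm_num), hlog, div_le_iff₀ hα]
      rw [div_le_iff₀ hl12] at h1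
      linarith
    have hexp : Real.log 2 / Real.log lam = α := by
      rw [hlog]
      field_simp
    obtain ⟨ω, hl, hs, c1, c2, hc1, hc⟩ := prescribed (fun k => lam ^ k) (by norm_num)
      (fun k => by
        show 2 * lam ^ k ≤ lam ^ (k + 1)
        rw [pow_succ]
        have := pow_pos hlam0 k
        nlinarith)
      (fun k => by
        show lam ^ (k + 1) ≤ 12 / 5 * lam ^ k
        rw [pow_succ]
        have := pow_pos hlam0 k
        nlinarith)
      (by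
        have h5 : (fun k : ℕ => lam ^ k / 2 ^ k) = fun k : ℕ => (lam / 2) ^ k := by
          funext k
          rw [div_pow]
        rw [h5]
        exact tendsto_pow_atTop_atTop_of_one_lt (by linarith))
    have h6 := FF_expo ω lam c1 c2 hlam2 hc1 hc
    rw [hexp] at h6
    exact ⟨ω, hl, Same.trans h6 hs⟩
  · obtain ⟨ω, hl, hs, c1, c2, hc1, hc⟩ := prescribed (fun k => 2 ^ k * ((k : ℝ) + 5)) (by norm_num)
      (fun k => by
        show 2 * (2 ^ k * ((k : ℝ) + 5)) ≤ 2 ^ (k + 1) * (((k + 1 : ℕ) : ℝ) + 5)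
        push_cast
        rw [pow_succ]
        have : (0 : ℝ) < 2 ^ k := by positivity
        nlinarith)
      (fun k => by
        show 2 ^ (k + 1) * (((k + 1 : ℕ) : ℝ) + 5) ≤ 12 / 5 * (2 ^ k * ((k : ℝ) + 5))
        push_cast
        rw [pow_succ]
        have h7 : (0 : ℝ) < 2 ^ k := by positivity
        have h8 : (0 : ℝ) ≤ k := by positivity
        nlinarith [mul_nonneg h7.le h8])
      (by
        have h5 : (fun k : ℕ => (2 : ℝ) ^ k * ((k : ℝ) + 5) / 2 ^ k) = fun k : ℕ => (k : ℝ) + 5 := by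
          funext k
          field_simp
        rw [h5]
        exact Filter.tendsto_atTop_add_const_right _ _ tendsto_natCast_atTop_atTop)
    exact ⟨ω, hl, Same.trans (t_EXL ω c1 c2 hc1 hc) hs⟩

end Pool.Agent.Results.MP_fbbd83_al.BlockGrowth
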