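import Pool.Agent.U640.BG.Asm4
import Pool.Agent.U640.BG.U3Stm
import Pool.Agent.U640.BG.DG
import Pool.Agent.U640.BG.JT
import Pool.Agent.U640.BG.STEP
import Pool.Agent.U640.BG.HL
import Pool.Agent.U640.BG.EH
import Pool.Agent.U640.BG.CNT
import Pool.Agent.U640.BG.LOC
import Pool.Agent.U640.BG.BS
import Pool.Agent.U640.BG.KI
import Pool.Agent.U640.BG.LX0
import Pool.Agent.U640.BG.LX1
import Pool.Agent.U640.BG.TX0
import Pool.Agent.U640.BG.TX1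
import Pool.Agent.U640.BG.U0
import Pool.Agent.U640.BG.U1
import Pool.Agent.U640.BG.U2
import Pool.Agent.U640.BG.U3

set_option autoImplicit false

/-!
# The growth of `G_ω` on the double logarithmic scale, for every `ω` which is not eventually constant

`ballO ω n` is the number of elements of length at most `n` of `G_ω`, `nn ω k x` are the integer weights
(`n_0 = (1, 1, 1)`; in step `i` the weight of the letter with entry `0` in the column `ω_i` is replaced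
by the sum of the three weights, the two others are doubled), `ell ω k = ℓ_k` their maximum,
`mnn ω k = m_k` their minimum and `kk ω n` the least `k` with `n ≤ ℓ_k` (definitions in
`Pool/Agent/H776R2/Om/Defs.lean` and `Pool/Agent/U640/BG/UStm.lean`).
-/

namespace Pool.Agent.Results.MP_fbbd83_al.GrowthExponent

open Pool.Agent.Results.MP_03d093_al.SphereBall Pool.Agent.H776R2.Grig Pool.Agent.H776R2.Om
open Pool.Agent.U640.BG

theorem mnn_pos (ω : Om) (k : ℕ) : 0 < mnn ω k :=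
  lt_min (nn_pos ω k .b) (lt_min (nn_pos ω k .c) (nn_pos ω k .d))

theorem ratio (ω : Om) (k : ℕ) : (ell ω k : ℝ) / (mnn ω k : ℝ) ≤ ((k : ℝ) + 2) / 2 := by
  have h0 : (0 : ℝ) < mnn ω k := by exact_mod_cast mnn_pos ω k
  have h1 : ∃ x, mnn ω k = nn ω k x := by
    unfold mnn
    rcases min_choice (nn ω k .b) (min (nn ω k .c) (nn ω k .d)) with h | h
    · exact ⟨.b, h⟩
    · rcases min_choice (nn ω k .c) (nn ω k .d) with h' | h'
      · exact ⟨.c, h.trans h'⟩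
      · exact ⟨.d, h.trans h'⟩
  obtain ⟨x, hx⟩ := h1
  have h2 := t_U0 ω k x
  rw [← hx] at h2
  have h3 : 2 * (ell ω k : ℝ) ≤ ((k : ℝ) + 2) * mnn ω k := by exact_mod_cast h2
  rw [div_le_div_iff₀ h0 (by norm_num)]
  linarith

theorem upper : ∃ C : ℝ, 0 < C ∧ ∀ (ω : Om) (k : ℕ),
    (ballO ω (ell ω k) : ℝ) ≤ Real.exp (C * 2 ^ k * (1 + Real.log ((k : ℝ) + 2))) := by
  obtain ⟨C, hC, h⟩ := t_U1
  refine ⟨C, hC, fun ω k => (h ω k).trans (Real.exp_le_exp.2 ?_)⟩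
  have h0 : (0 : ℝ) < mnn ω k := by exact_mod_cast mnn_pos ω k
  have h1 : (0 : ℝ) < ell ω k := by exact_mod_cast ell_pos ω k
  have h2 : Real.log ((ell ω k : ℝ) / (mnn ω k : ℝ)) ≤ Real.log ((k : ℝ) + 2) := by
    apply Real.log_le_log (by positivity)
    refine (ratio ω k).trans ?_
    have : (0 : ℝ) ≤ k := by positivity
    linarith
  have h3 : (0 : ℝ) ≤ C * 2 ^ k := by positivity
  exact mul_le_mul_of_nonneg_left (by linarith) h3

theorem lower (R : ℕ) (ε : ℝ) (hε : 0 < ε) :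
    ∃ C : ℝ, 0 < C ∧ ∀ ω : ℕ → Fin 3, (∀ N, ∃ n, N ≤ n ∧ ω n ≠ ω N) →
      (∃ i, i < R ∧ ω i ≠ ω (i + 1)) →
      ∀ k N : ℕ, C * (2 : ℝ) ^ (ε * k) * ell ω k ≤ N → 2 ^ 2 ^ k ≤ ballO ω N :=
  lower3 (t_STEP t_DG t_JT) t_HL t_EH (t_BS t_DG t_LOC) (t_TX0 t_DG t_KI t_LX0)
    (t_TX1 t_DG t_KI t_LX1) t_CNT R ε hε

/-- **Theorem.**
(1) There is a constant `C` such that for every sequence `ω` and every `k`, with `m_k = min_x n_k(x)`,
`γ_ω(ℓ_k) ≤ exp(C 2^k (1 + log(ℓ_k / m_k)))`, and `ℓ_k / m_k ≤ (k + 2) / 2`.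
(2) For all `R` and `ε > 0` there is `C` such that for every sequence `ω` which is not eventually
constant and not constant on `[0, R]`: `γ_ω(N) ≥ 2^(2^k)` for all `N ≥ C 2^(ε k) ℓ_k`.
(3) For every `ω` which is not eventually constant `log log γ_ω(n) / k_ω(n) → log 2`, where `k_ω(n)`
is the least `k` with `n ≤ ℓ_k`.
(4) For `ω = (01)^∞`: `γ_ω(n) ≤ exp(C n log log n / log n)` for `n ≥ 16`. -/
theorem result :
    (∃ C : ℝ, 0 < C ∧ ∀ (ω : ℕ → Fin 3) (k : ℕ),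
      (ballO ω (ell ω k) : ℝ) ≤
        Real.exp (C * 2 ^ k * (1 + Real.log ((ell ω k : ℝ) / (mnn ω k : ℝ)))) ∧
      (ell ω k : ℝ) / (mnn ω k : ℝ) ≤ ((k : ℝ) + 2) / 2) ∧
    (∀ (R : ℕ) (ε : ℝ), 0 < ε → ∃ C : ℝ, 0 < C ∧ ∀ ω : ℕ → Fin 3,
      (∀ N, ∃ n, N ≤ n ∧ ω n ≠ ω N) → (∃ i, i < R ∧ ω i ≠ ω (i + 1)) →
      ∀ k N : ℕ, C * (2 : ℝ) ^ (ε * k) * ell ω k ≤ N → 2 ^ 2 ^ k ≤ ballO ω N) ∧
    (∀ ω : ℕ → Fin 3, (∀ N, ∃ n, N ≤ n ∧ ω n ≠ ω N) →
      Filter.Tendsto (fun n : ℕ => Real.log (Real.log (ballO ω n)) / (kk ω n : ℝ)) Filter.atTop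
        (nhds (Real.log 2))) ∧
    (∃ C : ℝ, 0 < C ∧ ∀ n : ℕ, 16 ≤ n →
      (ballO (fun n => if n % 2 = 0 then 0 else 1) n : ℝ) ≤
        Real.exp (C * (n * Real.log (Real.log n) / Real.log n))) := by
  refine ⟨?_, lower, ?_, t_U2 t_U1⟩
  · obtain ⟨C, hC, h⟩ := t_U1
    exact ⟨C, hC, fun ω k => ⟨h ω k, ratio ω k⟩⟩
  · intro ω hω
    obtain ⟨R, hR1, hR2, hR3⟩ := run_len hω 0
    have h0 : ∃ i, i < R ∧ ω i ≠ ω (i + 1) := by
      refine ⟨R - 1, by omega, ?_⟩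
      have h1 := hR3 (R - 1) (by omega)
      rw [zero_add] at h1 hR2
      rw [h1, Nat.sub_add_cancel hR1]
      exact fun h => hR2 h.symm
    refine t_U3 ω ?_ fun ε hε => ?_
    · obtain ⟨C, hC, h'⟩ := upper
      exact ⟨C, hC, fun k => h' ω k⟩
    · obtain ⟨C, hC, h'⟩ := lower R ε hε
      exact ⟨C, hC, h' ω hω h0⟩

end Pool.Agent.Results.MP_fbbd83_al.GrowthExponent
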